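import Pool.Agent.H18.VZ.Targets
import Pool.Agent.H30.HX.EPA
import Pool.Agent.H52.HX.EPB

/-!
# Rational self-maps of arbitrary varieties: the difference quotient of the equation (EKR)
-/

set_option autoImplicit false

open MvPolynomial
open Pool.Agent.H12.ZD (pmap)
open Pool.Agent.H18.HIT Pool.Agent.H18.HX Pool.Agent.H18.VZ
open Pool.Agent.H30.HX (div_diff eval_fse fse_ec natDeg_of)
open Pool.Agent.H52.HX (sum_ec)

namespace Pool.Agent.H33.VZ

/-- (EKR) the difference quotient of `P` in the variable `X 0` -/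
theorem pf_EKR : T_EKR := by
  intro N r k Ω _ _ g P hP x ξ t
  let _ : Algebra k Ω := g.toAlgebra
  have hev : ∀ (G : Fin (N + 1) → Ω) (q : Po (N + 1) k), q.eval₂ g G = aeval G q :=
    fun G q => rfl
  have hr := natDeg_of hP.hom hP.mon
  constructor
  · have hd := div_diff (aeval (fun i : Fin N => (Fin.cons x t : Fin (N + 1) → Ω) i.succ) :
      Po N k →ₐ[k] Ω).toRingHom x ξ r (finSuccEquiv k N P) hr.le
    have h2 := eval_fse (Fin.cons x t : Fin (N + 1) → Ω) P
    have h3 := eval_fse (Fin.cons ξ t : Fin (N + 1) → Ω) P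
    simp only [Fin.cons_zero, Fin.cons_succ] at h2 h3 hd
    rw [h2, h3] at hd
    rw [hev, hev, ← hd]
    refine congrArg (fun z => z * (ξ - x)) ?_
    refine Finset.sum_congr rfl fun j _ => ?_
    have he := eval_fse (Fin.cons x t : Fin (N + 1) → Ω) (ec P j)
    rw [fse_ec] at he
    simp only [Fin.cons_zero, Fin.cons_succ] at he
    rw [hev, he]
  · rw [← sum_ec (r := r) hP.hom.totalDegree_le, hev, map_sum]
    refine Finset.sum_congr rfl fun j _ => ?_
    rw [map_mul, map_pow, aeval_X, hev, Fin.cons_zero]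

end Pool.Agent.H33.VZ
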